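import Mathlib
import Pool.Agent.H193R2.DRC
import Pool.Agent.H193R2.Cube

/-!
# Large pairwise intersecting subfamilies of dense set systems

Lower bounds by dependent random choice, upper bounds by sets attached to the points of a discrete
cube, where nearly antipodal points have almost disjoint sets.
-/

set_option autoImplicit false

namespace Pool.Agent.Results.MP_cecf76_co.TwoSided

open Finset Pool.Agent.H193R2

/-- The set `I` of indices is `ε`-intersecting for the sequence `A` of subsets of an `n`-set. -/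
def EpsIntersecting {n m : ℕ} (ε : ℝ) (A : Fin m → Finset (Fin n)) (I : Finset (Fin m)) : Prop :=
  ∀ i ∈ I, ∀ j ∈ I, i ≠ j → ε * (n : ℝ) < ((A i ∩ A j).card : ℝ)

/-- `f(n,m,c,ε)`: the largest `k` such that every sequence `A_1, …, A_m` of subsets of an `n`-set with
`|A_i| > c n` for all `i` has an `ε`-intersecting index set of size `k`. -/
noncomputable def f (n m : ℕ) (c ε : ℝ) : ℕ :=
  sSup {k : ℕ | ∀ A : Fin m → Finset (Fin n), (∀ i, c * (n : ℝ) < ((A i).card : ℝ)) →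
    ∃ I : Finset (Fin m), EpsIntersecting ε A I ∧ I.card = k}

theorem le_f {n m : ℕ} {c ε : ℝ} (hn : 1 ≤ n) (hc : c < 1) {k : ℕ}
    (h : ∀ A : Fin m → Finset (Fin n), (∀ i, c * (n : ℝ) < ((A i).card : ℝ)) →
      ∃ I : Finset (Fin m), EpsIntersecting ε A I ∧ k ≤ I.card) : k ≤ f n m c ε := by
  unfold f
  apply le_csSup
  · refine ⟨m, ?_⟩
    intro l hl
    obtain ⟨I, -, hI⟩ := hl (fun _ => univ) (fun i => by
      rw [card_univ, Fintype.card_fin]
      have : (0 : ℝ) < n := by exact_mod_cast hn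
      nlinarith)
    rw [← hI]
    simpa using Finset.card_le_univ I
  · intro A hA
    obtain ⟨I, hI, hk⟩ := h A hA
    obtain ⟨J, hJ, hJk⟩ := Finset.exists_subset_card_eq hk
    exact ⟨J, fun i hi j hj hij => hI i (hJ hi) j (hJ hj) hij, hJk⟩

theorem f_le {n m : ℕ} {c ε : ℝ} {B : ℝ} (hB : 0 ≤ B) (A : Fin m → Finset (Fin n))
    (hA : ∀ i, c * (n : ℝ) < ((A i).card : ℝ))
    (h : ∀ I : Finset (Fin m), EpsIntersecting ε A I → (I.card : ℝ) ≤ B) : (f n m c ε : ℝ) ≤ B := by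
  have : f n m c ε ≤ ⌊B⌋₊ := by
    unfold f
    apply csSup_le'
    intro k hk
    obtain ⟨I, hI, hIk⟩ := hk A hA
    rw [← hIk]
    exact Nat.le_floor (h I hI)
  exact (Nat.cast_le.2 this).trans (Nat.floor_le hB)

/-! ### the lower bound -/

theorem lower {n m : ℕ} (hn : 1 ≤ n) (hm : 1 ≤ m) {c ε : ℝ} (hε : 0 < ε) (hεc : ε < c)
    (hc : c < 1) :
    c / 2 * m * (2 * ((min m (2 ^ n) : ℕ) : ℝ)) ^ (-(Real.log (1 / c) / Real.log (c / ε)))
      ≤ (f n m c ε : ℝ) := by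
  have hc0 : 0 < c := hε.trans hεc
  set M : ℕ := min m (2 ^ n) with hM
  have hM1 : 1 ≤ M := by
    rw [hM]; exact le_min hm (Nat.one_le_two_pow)
  have hM1' : (1 : ℝ) ≤ M := by exact_mod_cast hM1
  set y : ℝ := ε / c with hy
  have hy0 : 0 < y := by positivity
  have hy1 : y < 1 := by rw [hy, div_lt_one hc0]; exact hεc
  set x : ℝ := 1 / (2 * M) with hx
  have hx0 : 0 < x := by positivity
  have hx1 : x ≤ 1 := by
    rw [hx, div_le_one (by positivity)]; linarith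
  -- `y ^ (t + 1) < x ≤ y ^ t`
  obtain ⟨t, ht1, ht2⟩ := exists_nat_pow_near_of_lt_one hx0 hx1 hy0 hy1
  set s := t + 1 with hs
  set κ : ℝ := Real.log (1 / c) / Real.log (c / ε) with hκ
  have hlog1 : 0 < Real.log (1 / c) := Real.log_pos (by rw [lt_div_iff₀ hc0]; linarith)
  have hlog2 : 0 < Real.log (c / ε) := Real.log_pos (by rw [lt_div_iff₀ hε]; linarith)
  have hκ0 : 0 < κ := div_pos hlog1 hlog2
  have hyc : y ^ κ = c := by
    rw [Real.rpow_def_of_pos hy0, hκ]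
    have e1 : Real.log y = - Real.log (c / ε) := by
      rw [hy, ← Real.log_inv, inv_div]
    rw [e1]
    have e2 : -Real.log (c / ε) * (Real.log (1 / c) / Real.log (c / ε)) = -Real.log (1 / c) := by
      field_simp
    rw [e2, ← Real.log_inv, Real.exp_log (by positivity)]
    simp
  have hct : (2 * (M : ℝ)) ^ (-κ) ≤ c ^ t := by
    have e1 : (2 * (M : ℝ)) ^ (-κ) = x ^ κ := by
      rw [hx, one_div, Real.inv_rpow (by positivity), Real.rpow_neg (by positivity)]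
    rw [e1]
    calc x ^ κ ≤ (y ^ t) ^ κ := Real.rpow_le_rpow hx0.le ht2 hκ0.le
      _ = c ^ t := by
          rw [← Real.rpow_natCast, ← Real.rpow_mul hy0.le, mul_comm, Real.rpow_mul hy0.le, hyc,
            Real.rpow_natCast]
  have hMs : (M : ℝ) * ε ^ s ≤ c ^ s / 2 := by
    have e1 : ε ^ s = y ^ s * c ^ s := by
      rw [hy, div_pow, div_mul_cancel₀ _ (by positivity)]
    rw [e1]
    have e2 : y ^ s * (2 * M) ≤ 1 := by
      rw [hx, lt_div_iff₀ (by positivity)] at ht1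
      exact ht1.le
    have e3 : 0 < c ^ s := by positivity
    nlinarith
  have hnat : ⌈c / 2 * m * (2 * (M : ℝ)) ^ (-κ)⌉₊ ≤ f n m c ε := by
    refine le_f hn hc ?_
    intro A hA
    obtain ⟨I, hI1, hI2⟩ := DRC.drc A c ε hc0.le hε.le s (by rw [Fintype.card_fin]; omega)
      (fun i => by rw [Fintype.card_fin]; exact (hA i).le)
    refine ⟨I, fun i hi j hj _ => by simpa using hI2 i hi j hj, ?_⟩
    apply Nat.ceil_le.2
    refine le_trans ?_ hI1
    rw [Fintype.card_fin]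
    have hN : (univ.image A).card ≤ M := by
      rw [hM]
      refine le_min ?_ ?_
      · simpa using (Finset.card_image_le (s := univ) (f := A))
      · simpa using Finset.card_le_univ (univ.image A)
    have hN' : ((univ.image A).card : ℝ) ≤ M := by exact_mod_cast hN
    have e1 : (m : ℝ) * ((univ.image A).card : ℝ) * ε ^ s ≤ m * (c ^ s / 2) := by
      rw [mul_assoc]
      refine mul_le_mul_of_nonneg_left (le_trans ?_ hMs) (by positivity)
      exact mul_le_mul_of_nonneg_right hN' (by positivity)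
    have e2 : c / 2 * m * (2 * (M : ℝ)) ^ (-κ) ≤ m * (c ^ s / 2) := by
      calc c / 2 * m * (2 * (M : ℝ)) ^ (-κ) ≤ c / 2 * m * c ^ t := by gcongr
        _ = m * (c ^ s / 2) := by rw [hs, pow_succ]; ring
    have e3 : (m : ℝ) * c ^ s = m * (c ^ s / 2) + m * (c ^ s / 2) := by ring
    linarith
  exact (Nat.le_ceil _).trans (by exact_mod_cast hnat)

/-! ### the upper bound -/

/-- the ground set of the construction -/
abbrev S (d b e : ℕ) := (Fin d × Bool × Fin b) ⊕ Fin e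

/-- the set attached to a point of the cube -/
def setOf {d b e : ℕ} (x : Fin d → Bool) : Finset (S d b e) :=
  (univ.filter (fun p : Fin d × Bool × Fin b => p.2.1 = x p.1)).disjSum univ

theorem card_inter {d b e : ℕ} (x y : Fin d → Bool) :
    (setOf x ∩ setOf y : Finset (S d b e)).card = b * Cube.agree x y + e := by
  have h1 : (setOf x ∩ setOf y : Finset (S d b e)) =
      (univ.filter (fun p : Fin d × Bool × Fin b => p.2.1 = x p.1 ∧ p.2.1 = y p.1)).disjSum univ := by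
    ext s
    rcases s with s | s <;> simp [setOf]
  rw [h1, card_disjSum, card_univ, Fintype.card_fin, Finset.card_filter, Fintype.sum_prod_type]
  congr 1
  unfold Cube.agree
  rw [Finset.card_filter, Finset.mul_sum]
  refine Finset.sum_congr rfl (fun j _ => ?_)
  rw [Fintype.sum_prod_type, Fintype.sum_bool]
  have key : ∀ u v : Bool, ((∑ _k : Fin b, if true = u ∧ true = v then 1 else 0)
      + ∑ _k : Fin b, if false = u ∧ false = v then 1 else 0) = b * if u = v then 1 else 0 := by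
    intro u v
    cases u <;> cases v <;> simp
  exact key (x j) (y j)

theorem agree_self {d : ℕ} (x : Fin d → Bool) : Cube.agree x x = d := by
  simp [Cube.agree]

theorem card_setOf {d b e : ℕ} (x : Fin d → Bool) : (setOf x : Finset (S d b e)).card = b * d + e := by
  rw [← inter_self (setOf x), card_inter, agree_self]

theorem upper_aux {n m d b e : ℕ} {c ε : ℝ} (hc : c ≤ 1 / 2) (hε : 0 < ε) (hε1 : ε ≤ 1)
    (hn : 2 * d * b + e = n) (he : 1 ≤ e) (hb : ε * (b * d) + e ≤ ε * n) (hd : 2 ^ d ≤ m) :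
    (f n m c ε : ℝ) ≤ 2 * m * Real.exp (-(ε ^ 2 * d / 2)) := by
  classical
  have hcard : Fintype.card (S d b e) = n := by
    simp only [S, Fintype.card_sum, Fintype.card_prod, Fintype.card_fin, Fintype.card_bool]
    rw [← hn]; ring
  let σ : S d b e ≃ Fin n := Fintype.equivFinOfCardEq hcard
  let τ : Fin (2 ^ d) ≃ (Fin d → Bool) := (Fintype.equivFinOfCardEq (by simp)).symm
  have hd0 : 0 < 2 ^ d := by positivity
  let code : Fin m → (Fin d → Bool) := fun i => τ ⟨i.val % 2 ^ d, Nat.mod_lt _ hd0⟩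
  let A : Fin m → Finset (Fin n) := fun i => (setOf (code i) : Finset (S d b e)).map σ.toEmbedding
  have hAinter : ∀ i j, (A i ∩ A j).card = b * Cube.agree (code i) (code j) + e := by
    intro i j
    show ((setOf (code i)).map σ.toEmbedding ∩ (setOf (code j)).map σ.toEmbedding).card = _
    rw [← Finset.map_inter, card_map, card_inter]
  have hAcard : ∀ i, (A i).card = b * d + e := by
    intro i
    show ((setOf (code i)).map σ.toEmbedding).card = _
    rw [card_map, card_setOf]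
  refine f_le (by positivity) A ?_ ?_
  · intro i
    rw [hAcard, ← hn]
    push_cast
    have he' : (1 : ℝ) ≤ e := by exact_mod_cast he
    have hb0 : (0 : ℝ) ≤ (d : ℝ) * b := by positivity
    nlinarith
  · intro I hI
    have hfib : I.card ≤ (m / 2 ^ d + 1) * (I.image code).card := by
      refine Finset.card_le_mul_card_image I _ ?_
      intro a _
      have hinj : Set.InjOn (fun i : Fin m => i.val / 2 ^ d) ({i ∈ I | code i = a} : Finset (Fin m)) := by
        intro i hi j hj hij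
        have hi' := (mem_filter.1 hi).2
        have hj' := (mem_filter.1 hj).2
        have h1 : (⟨i.val % 2 ^ d, Nat.mod_lt _ hd0⟩ : Fin (2 ^ d)) = ⟨j.val % 2 ^ d, Nat.mod_lt _ hd0⟩ :=
          τ.injective (hi'.trans hj'.symm)
        have h2 : i.val % 2 ^ d = j.val % 2 ^ d := congrArg Fin.val h1
        have h3 : i.val / 2 ^ d = j.val / 2 ^ d := hij
        apply Fin.ext
        rw [← Nat.div_add_mod i.val (2 ^ d), ← Nat.div_add_mod j.val (2 ^ d), h2, h3]
      have h4 := Finset.card_le_card_of_injOn (s := ({i ∈ I | code i = a} : Finset (Fin m)))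
        (t := Finset.range (m / 2 ^ d + 1)) (fun i : Fin m => i.val / 2 ^ d)
        (fun i _ => by
          simp only [Finset.coe_range, Set.mem_Iio]
          exact Nat.lt_succ_of_le (Nat.div_le_div_right i.isLt.le)) hinj
      simpa using h4
    have hX : ((I.image code).card : ℝ) ≤ 2 ^ d * Real.exp (-(ε ^ 2 * d / 2)) := by
      apply Cube.antipodal _ ε hε.le
      intro x hx y hy
      obtain ⟨i, hi, rfl⟩ := mem_image.1 hx
      obtain ⟨j, hj, rfl⟩ := mem_image.1 hy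
      by_cases hij : i = j
      · subst hij
        rw [agree_self]
        have : (0 : ℝ) ≤ d := by positivity
        nlinarith
      · have h1 := hI i hi j hj hij
        rw [hAinter] at h1
        push_cast at h1
        rcases Nat.eq_zero_or_pos b with hb0 | hb0
        · subst hb0
          simp only [CharP.cast_eq_zero, zero_mul, mul_zero, zero_add] at h1 hb
          linarith
        · have hb0' : (0 : ℝ) < b := by exact_mod_cast hb0
          have h2 : (b : ℝ) * (ε * d) < b * (Cube.agree (code i) (code j) : ℝ) := by nlinarith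
          exact (lt_of_mul_lt_mul_left h2 hb0'.le).le
    have h5 : ((m / 2 ^ d + 1 : ℕ) : ℝ) * 2 ^ d ≤ 2 * m := by
      have h6 : (m / 2 ^ d + 1) * 2 ^ d ≤ 2 * m := by
        have := Nat.div_mul_le_self m (2 ^ d)
        rw [add_mul, one_mul]
        omega
      exact_mod_cast h6
    calc (I.card : ℝ) ≤ ((m / 2 ^ d + 1 : ℕ) : ℝ) * ((I.image code).card : ℝ) := by exact_mod_cast hfib
      _ ≤ ((m / 2 ^ d + 1 : ℕ) : ℝ) * (2 ^ d * Real.exp (-(ε ^ 2 * d / 2))) := by gcongr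
      _ = ((m / 2 ^ d + 1 : ℕ) : ℝ) * 2 ^ d * Real.exp (-(ε ^ 2 * d / 2)) := by ring
      _ ≤ _ := by gcongr

theorem f_le_self {n m : ℕ} (hn : 1 ≤ n) {c ε : ℝ} (hc : c < 1) : f n m c ε ≤ m := by
  have h := f_le (n := n) (m := m) (c := c) (ε := ε) (B := m) (by positivity) (fun _ => univ)
    (fun i => by
      rw [card_univ, Fintype.card_fin]
      have : (0 : ℝ) < n := by exact_mod_cast hn
      nlinarith)
    (fun I _ => by
      have := Finset.card_le_univ I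
      rw [Fintype.card_fin] at this
      exact_mod_cast this)
  exact_mod_cast h

/-- upper bound with a free parameter `d` -/
theorem upper_d {n m d : ℕ} (hn : 1 ≤ n) {c ε : ℝ} (hc : c ≤ 1 / 2) (hε : 0 < ε) (hε1 : ε ≤ 1)
    (hd : 2 ^ d ≤ m) (hdn : 4 * (d : ℝ) ≤ ε * n) :
    (f n m c ε : ℝ) ≤ 2 * m * Real.exp (-(ε ^ 2 * d / 2)) := by
  rcases Nat.eq_zero_or_pos d with hd0 | hd0
  · subst hd0
    have h1 : ((f n m c ε : ℕ) : ℝ) ≤ m := by exact_mod_cast f_le_self hn (by linarith)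
    simp only [CharP.cast_eq_zero, mul_zero, zero_div, neg_zero, Real.exp_zero, mul_one]
    have h2 : (0 : ℝ) ≤ m := by positivity
    linarith
  · have h2d : 0 < 2 * d := by omega
    have hb := Nat.div_add_mod (n - 1) (2 * d)
    have hmod := Nat.mod_lt (n - 1) h2d
    refine upper_aux (b := (n - 1) / (2 * d)) (e := (n - 1) % (2 * d) + 1) hc hε hε1 (by omega)
      (by omega) ?_ hd
    set b := (n - 1) / (2 * d) with hbdef
    set e := (n - 1) % (2 * d) + 1 with hedef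
    have hne : 2 * d * b + e = n := by omega
    have he2 : e ≤ 2 * d := by omega
    have hne' : 2 * (d : ℝ) * b + e = n := by exact_mod_cast hne
    have he2' : (e : ℝ) ≤ 2 * d := by exact_mod_cast he2
    have he0 : (0 : ℝ) ≤ e := by positivity
    have e1 : ε * (b * d) ≤ ε * (n / 2) := by
      apply mul_le_mul_of_nonneg_left _ hε.le
      nlinarith
    nlinarith

theorem two_pow_log (m : ℕ) (hm : 1 ≤ m) (d : ℕ) (h : (d : ℝ) ≤ Real.logb 2 m) : 2 ^ d ≤ m := by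
  have hm0 : (0 : ℝ) < m := by exact_mod_cast hm
  have h1 : (2 : ℝ) ^ (d : ℝ) ≤ (2 : ℝ) ^ (Real.logb 2 m) :=
    Real.rpow_le_rpow_of_exponent_le (by norm_num) h
  rw [Real.rpow_logb (by norm_num) (by norm_num) hm0, Real.rpow_natCast] at h1
  exact_mod_cast h1

theorem exp_le_four {ε L : ℝ} (hε : 0 < ε) (hε1 : ε ≤ 1) {d : ℝ} (hd : L - 1 ≤ d) :
    2 * Real.exp (-(ε ^ 2 * d / 2)) ≤ 4 * Real.exp (-(ε ^ 2 * L / 2)) := by
  have h1 : Real.exp (-(ε ^ 2 * d / 2)) ≤ Real.exp (1 / 2) * Real.exp (-(ε ^ 2 * L / 2)) := by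
    rw [← Real.exp_add]
    apply Real.exp_le_exp.2
    have : ε ^ 2 ≤ 1 := by nlinarith
    nlinarith
  have h2 : Real.exp (1 / 2) ≤ 2 := by
    have h3 : Real.exp (1 / 2) ^ 2 = Real.exp 1 := by
      rw [← Real.exp_nat_mul]; norm_num
    have h4 := Real.exp_one_lt_d9
    have h5 : Real.exp (1 / 2) ^ 2 ≤ 2 ^ 2 := by rw [h3]; linarith
    exact (sq_le_sq₀ (Real.exp_pos _).le (by norm_num)).1 h5
  have h6 : 0 < Real.exp (-(ε ^ 2 * L / 2)) := Real.exp_pos _
  nlinarith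

/-- upper bound in the whole range -/
theorem upper {n m : ℕ} (hn : 1 ≤ n) (hm : 1 ≤ m) {c ε : ℝ} (hc : c ≤ 1 / 2) (hε : 0 < ε)
    (hε1 : ε ≤ 1) :
    (f n m c ε : ℝ) ≤ 4 * m * ((min m (2 ^ n) : ℕ) : ℝ) ^ (-(ε ^ 3 / 6)) := by
  set M : ℕ := min m (2 ^ n) with hM
  have hM1 : 1 ≤ M := le_min hm Nat.one_le_two_pow
  have hM0 : (0 : ℝ) < M := by exact_mod_cast hM1
  have hM1' : (1 : ℝ) ≤ M := by exact_mod_cast hM1
  set L : ℝ := ε / 4 * Real.logb 2 M with hL
  have hlog0 : 0 ≤ Real.logb 2 M := Real.logb_nonneg (by norm_num) hM1'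
  have hL0 : 0 ≤ L := by positivity
  have hLm : L ≤ Real.logb 2 m := by
    have h1 : Real.logb 2 M ≤ Real.logb 2 m := by
      apply Real.logb_le_logb_of_le (by norm_num) hM0
      exact_mod_cast min_le_left _ _
    rw [hL]; nlinarith
  have hLn : 4 * L ≤ ε * n := by
    have h1 : Real.logb 2 M ≤ n := by
      have h2 : Real.logb 2 M ≤ Real.logb 2 ((2 : ℝ) ^ n) := by
        apply Real.logb_le_logb_of_le (by norm_num) hM0
        exact_mod_cast min_le_right _ _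
      rwa [Real.logb_pow, Real.logb_self_eq_one (by norm_num), mul_one] at h2
    rw [hL]; nlinarith
  have hfl := Nat.floor_le hL0
  have hfl2 := Nat.lt_floor_add_one L
  have h1 := upper_d (d := ⌊L⌋₊) hn hc hε hε1 (two_pow_log m hm _ (hfl.trans hLm)) (by linarith)
  have h2 := exp_le_four (L := L) hε hε1 (d := (⌊L⌋₊ : ℝ)) (by linarith)
  have h3 : Real.exp (-(ε ^ 2 * L / 2)) ≤ (M : ℝ) ^ (-(ε ^ 3 / 6)) := by
    rw [Real.rpow_def_of_pos hM0]
    apply Real.exp_le_exp.2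
    have h4 : Real.logb 2 M = Real.log M / Real.log 2 := rfl
    have h5 : Real.log 2 < 0.75 := by
      have := Real.log_two_lt_d9; linarith
    have h6 : 0 < Real.log 2 := Real.log_pos (by norm_num)
    have h7 : 0 ≤ Real.log M := Real.log_nonneg hM1'
    have h8 : 4 / 3 * Real.log M ≤ Real.logb 2 M := by
      rw [h4, le_div_iff₀ h6]
      nlinarith
    rw [hL]
    have h9 : 0 < ε ^ 3 := by positivity
    have h10 : ε ^ 3 / 8 * (4 / 3 * Real.log M) ≤ ε ^ 3 / 8 * Real.logb 2 M := by gcongr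
    nlinarith
  calc (f n m c ε : ℝ) ≤ 2 * m * Real.exp (-(ε ^ 2 * (⌊L⌋₊ : ℝ) / 2)) := h1
    _ = m * (2 * Real.exp (-(ε ^ 2 * (⌊L⌋₊ : ℝ) / 2))) := by ring
    _ ≤ m * (4 * (M : ℝ) ^ (-(ε ^ 3 / 6))) := by
        apply mul_le_mul_of_nonneg_left _ (by positivity)
        linarith
    _ = _ := by ring

/-- better upper bound if the sets are not too many compared with `2 ^ n` -/
theorem upper_log {n m : ℕ} (hn : 1 ≤ n) (hm : 1 ≤ m) {c ε : ℝ} (hc : c ≤ 1 / 2) (hε : 0 < ε)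
    (hε1 : ε ≤ 1) (hmn : 4 * Real.logb 2 m ≤ ε * n) :
    (f n m c ε : ℝ) ≤ 4 * (m : ℝ) ^ (1 - ε ^ 2 / 2) := by
  have hm0 : (0 : ℝ) < m := by exact_mod_cast hm
  have hm1 : (1 : ℝ) ≤ m := by exact_mod_cast hm
  set L : ℝ := Real.logb 2 m with hL
  have hL0 : 0 ≤ L := Real.logb_nonneg (by norm_num) hm1
  have hfl := Nat.floor_le hL0
  have hfl2 := Nat.lt_floor_add_one L
  have h1 := upper_d (d := ⌊L⌋₊) hn hc hε hε1 (two_pow_log m hm _ hfl) (by linarith)
  have h2 := exp_le_four (L := L) hε hε1 (d := (⌊L⌋₊ : ℝ)) (by linarith)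
  have h3 : Real.exp (-(ε ^ 2 * L / 2)) ≤ (m : ℝ) ^ (-(ε ^ 2 / 2)) := by
    rw [Real.rpow_def_of_pos hm0]
    apply Real.exp_le_exp.2
    have h4 : Real.logb 2 m = Real.log m / Real.log 2 := rfl
    have h5 : Real.log 2 < 1 := by
      have := Real.log_two_lt_d9; linarith
    have h6 : 0 < Real.log 2 := Real.log_pos (by norm_num)
    have h7 : 0 ≤ Real.log m := Real.log_nonneg hm1
    have h8 : Real.log m ≤ Real.logb 2 m := by
      rw [h4, le_div_iff₀ h6]
      nlinarith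
    have h9 : 0 < ε ^ 2 := by positivity
    nlinarith
  have h10 : (m : ℝ) ^ (1 - ε ^ 2 / 2) = m * (m : ℝ) ^ (-(ε ^ 2 / 2)) := by
    rw [sub_eq_add_neg, Real.rpow_add hm0, Real.rpow_one]
  rw [h10]
  calc (f n m c ε : ℝ) ≤ 2 * m * Real.exp (-(ε ^ 2 * (⌊L⌋₊ : ℝ) / 2)) := h1
    _ = m * (2 * Real.exp (-(ε ^ 2 * (⌊L⌋₊ : ℝ) / 2))) := by ring
    _ ≤ m * (4 * (m : ℝ) ^ (-(ε ^ 2 / 2))) := by
        apply mul_le_mul_of_nonneg_left _ (by positivity)
        linarith
    _ = _ := by ring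

/-! ### consequences -/

theorem near_linear {c : ℝ} (hc0 : 0 < c) (hc : c ≤ 1 / 2) {δ : ℝ} (hδ : 0 < δ) :
    ∃ ε₀ : ℝ, 0 < ε₀ ∧ ∃ η : ℝ, 0 < η ∧ ∀ ε : ℝ, 0 < ε → ε ≤ ε₀ → ∀ n m : ℕ, 1 ≤ n → 1 ≤ m →
      η * (m : ℝ) ^ (1 - δ) ≤ (f n m c ε : ℝ) := by
  have hc1 : c < 1 := by linarith
  have hcr : 0 < c ^ (1 / δ) := Real.rpow_pos_of_pos hc0 _
  have hcr1 : c ^ (1 / δ) < 1 := Real.rpow_lt_one hc0.le hc1 (by positivity)
  refine ⟨c * c ^ (1 / δ), by positivity, c / 2 * 2 ^ (-δ), by positivity, ?_⟩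
  intro ε hε hε0 n m hn hm
  have hεc : ε < c := by nlinarith
  have hm0 : (0 : ℝ) < m := by exact_mod_cast hm
  have hm1 : (1 : ℝ) ≤ m := by exact_mod_cast hm
  refine le_trans ?_ (lower hn hm hε hεc hc1)
  set κ : ℝ := Real.log (1 / c) / Real.log (c / ε) with hκ
  have hlog1 : 0 < Real.log (1 / c) := Real.log_pos (by rw [lt_div_iff₀ hc0]; linarith)
  have hlog2 : 0 < Real.log (c / ε) := Real.log_pos (by rw [lt_div_iff₀ hε]; linarith)
  have hκ0 : 0 < κ := div_pos hlog1 hlog2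
  have hκδ : κ ≤ δ := by
    rw [hκ, div_le_iff₀ hlog2]
    have e1 : (1 / c) ^ (1 / δ) ≤ c / ε := by
      rw [one_div c, Real.inv_rpow hc0.le, le_div_iff₀ hε, inv_mul_le_iff₀ hcr]
      linarith
    have e2 := Real.log_le_log (by positivity) e1
    rw [Real.log_rpow (by positivity)] at e2
    have e3 : Real.log (1 / c) = δ * (1 / δ * Real.log (1 / c)) := by field_simp
    rw [e3]
    exact mul_le_mul_of_nonneg_left e2 hδ.le
  have hM1 : 1 ≤ min m (2 ^ n) := le_min hm Nat.one_le_two_pow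
  have hM1' : (1 : ℝ) ≤ ((min m (2 ^ n) : ℕ) : ℝ) := by exact_mod_cast hM1
  have hMm : ((min m (2 ^ n) : ℕ) : ℝ) ≤ m := by exact_mod_cast min_le_left _ _
  have h1 : (2 * (m : ℝ)) ^ (-δ) ≤ (2 * ((min m (2 ^ n) : ℕ) : ℝ)) ^ (-κ) := by
    calc (2 * (m : ℝ)) ^ (-δ) ≤ (2 * (m : ℝ)) ^ (-κ) := by
          apply Real.rpow_le_rpow_of_exponent_le (by linarith) (by linarith)
      _ ≤ (2 * ((min m (2 ^ n) : ℕ) : ℝ)) ^ (-κ) := by
          apply Real.rpow_le_rpow_of_nonpos (by linarith) (by linarith) (by linarith)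
  calc c / 2 * 2 ^ (-δ) * (m : ℝ) ^ (1 - δ) = c / 2 * m * (2 * (m : ℝ)) ^ (-δ) := by
        rw [Real.mul_rpow (by norm_num) hm0.le, sub_eq_add_neg, Real.rpow_add hm0, Real.rpow_one]
        ring
    _ ≤ _ := by gcongr

theorem not_linear {c : ℝ} (hc : c ≤ 1 / 2) {ε : ℝ} (hε : 0 < ε) {η : ℝ} (hη : 0 < η) :
    ∃ m₀ : ℕ, ∀ m : ℕ, m₀ ≤ m → ∀ n : ℕ, m < n → (f n m c ε : ℝ) < η * m := by
  -- it is enough to treat `ε ≤ 1`
  wlog hε1 : ε ≤ 1 generalizing ε
  · obtain ⟨m₀, h⟩ := this (ε := 1) one_pos le_rfl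
    refine ⟨m₀, fun m hm n hn => lt_of_le_of_lt ?_ (h m hm n hn)⟩
    have : f n m c ε ≤ f n m c 1 := by
      refine le_f (by omega) (by linarith) ?_
      intro A hA
      have hmem : f n m c ε ∈ {k : ℕ | ∀ A : Fin m → Finset (Fin n),
          (∀ i, c * (n : ℝ) < ((A i).card : ℝ)) →
          ∃ I : Finset (Fin m), EpsIntersecting ε A I ∧ I.card = k} := by
        apply Nat.sSup_mem
        · exact ⟨0, fun A _ => ⟨∅, by intro i hi; simp at hi, rfl⟩⟩
        · refine ⟨m, ?_⟩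
          intro l hl
          obtain ⟨I, -, hI⟩ := hl A hA
          rw [← hI]
          simpa using Finset.card_le_univ I
      obtain ⟨I, hI, hk⟩ := hmem A hA
      refine ⟨I, fun i hi j hj hij => lt_of_le_of_lt ?_ (hI i hi j hj hij), hk.ge⟩
      have : (0 : ℝ) ≤ n := by positivity
      nlinarith
    exact_mod_cast this
  have h1 : ∀ᶠ x : ℝ in Filter.atTop, 4 * Real.logb 2 x ≤ ε * x := by
    have h2 := (Real.isLittleO_log_id_atTop).def (c := ε * Real.log 2 / 4)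
      (by have := Real.log_pos (by norm_num : (1:ℝ) < 2); positivity)
    filter_upwards [h2, Filter.eventually_ge_atTop 1] with x hx hx1
    have h3 : 0 < Real.log 2 := Real.log_pos (by norm_num)
    simp only [id, Real.norm_eq_abs] at hx
    rw [abs_of_nonneg (Real.log_nonneg hx1), abs_of_nonneg (by linarith : (0:ℝ) ≤ x)] at hx
    unfold Real.logb
    rw [← mul_div_assoc, div_le_iff₀ h3]
    linarith
  have h2 : ∀ᶠ x : ℝ in Filter.atTop, 4 / η < x ^ (ε ^ 2 / 2) :=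
    (tendsto_rpow_atTop (by positivity)).eventually_gt_atTop _
  have h3 := (tendsto_natCast_atTop_atTop (R := ℝ)).eventually
    (h1.and (h2.and (Filter.eventually_ge_atTop 1)))
  obtain ⟨m₀, hm₀⟩ := Filter.eventually_atTop.1 h3
  refine ⟨m₀, fun m hm n hn => ?_⟩
  obtain ⟨ha, hb, hm1⟩ := hm₀ m hm
  have hm1' : 1 ≤ m := by exact_mod_cast hm1
  have hm0 : (0 : ℝ) < m := by linarith
  have hmn : (m : ℝ) ≤ n := by exact_mod_cast hn.le
  have h4 := upper_log (n := n) (by omega) hm1' hc hε hε1 (by nlinarith)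
  refine lt_of_le_of_lt h4 ?_
  rw [Real.rpow_sub hm0, Real.rpow_one, ← mul_div_assoc, div_lt_iff₀ (by positivity)]
  rw [div_lt_iff₀ hη] at hb
  nlinarith

/-- **The order of growth of `f(n,m,c,ε)`** for `0 < c ≤ 1/2`. With `M = min(m, 2^n)`:

(1) for `0 < ε < c` and all `n, m ≥ 1`,
`(c/2) m (2M)^(-log(1/c)/log(c/ε)) ≤ f(n,m,c,ε) ≤ 4 m M^(-ε³/6)`;
(2) if moreover `4 log₂ m ≤ ε n`, then `f(n,m,c,ε) ≤ 4 m^(1-ε²/2)`;
(3) for every `δ > 0` and all small `ε`, `f(n,m,c,ε) ≥ η m^(1-δ)` for all `n, m`;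
(4) (the conjecture) for all small `ε`, `f(n,n,c,ε) > η √n` for all `n ≥ 1`;
(5) for no `ε, η > 0` is `f(n,m,c,ε) ≥ η m` for all `m < n` with `m` large. -/
theorem result (c : ℝ) (hc0 : 0 < c) (hc : c ≤ 1 / 2) :
    (∀ ε : ℝ, 0 < ε → ε < c → ∀ n m : ℕ, 1 ≤ n → 1 ≤ m →
      c / 2 * m * (2 * ((min m (2 ^ n) : ℕ) : ℝ)) ^ (-(Real.log (1 / c) / Real.log (c / ε)))
          ≤ (f n m c ε : ℝ) ∧
        (f n m c ε : ℝ) ≤ 4 * m * ((min m (2 ^ n) : ℕ) : ℝ) ^ (-(ε ^ 3 / 6))) ∧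
    (∀ ε : ℝ, 0 < ε → ε ≤ 1 → ∀ n m : ℕ, 1 ≤ n → 1 ≤ m → 4 * Real.logb 2 m ≤ ε * n →
      (f n m c ε : ℝ) ≤ 4 * (m : ℝ) ^ (1 - ε ^ 2 / 2)) ∧
    (∀ δ : ℝ, 0 < δ → ∃ ε₀ : ℝ, 0 < ε₀ ∧ ∃ η : ℝ, 0 < η ∧ ∀ ε : ℝ, 0 < ε → ε ≤ ε₀ →
      ∀ n m : ℕ, 1 ≤ n → 1 ≤ m → η * (m : ℝ) ^ (1 - δ) ≤ (f n m c ε : ℝ)) ∧
    (∃ ε₀ : ℝ, 0 < ε₀ ∧ ∃ η : ℝ, 0 < η ∧ ∀ ε : ℝ, 0 < ε → ε ≤ ε₀ →
      ∀ n : ℕ, 1 ≤ n → η * (n : ℝ) ^ (1 / 2 : ℝ) < (f n n c ε : ℝ)) ∧
    (∀ ε : ℝ, 0 < ε → ∀ η : ℝ, 0 < η → ∃ m₀ : ℕ, ∀ m : ℕ, m₀ ≤ m → ∀ n : ℕ, m < n →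
      (f n m c ε : ℝ) < η * m) := by
  refine ⟨fun ε hε hεc n m hn hm => ⟨lower hn hm hε hεc (by linarith),
      upper hn hm hc hε (by linarith)⟩, fun ε hε hε1 n m hn hm h => upper_log hn hm hc hε hε1 h,
    fun δ hδ => near_linear hc0 hc hδ, ?_, fun ε hε η hη => not_linear hc hε hη⟩
  obtain ⟨ε₀, hε₀, η, hη, h⟩ := near_linear hc0 hc (δ := 1 / 2) (by norm_num)
  refine ⟨ε₀, hε₀, η / 2, by positivity, fun ε hε hε1 n hn => ?_⟩
  have h1 := h ε hε hε1 n n hn hn
  have hn0 : (0 : ℝ) < n := by exact_mod_cast hn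
  have h2 : (0 : ℝ) < (n : ℝ) ^ (1 / 2 : ℝ) := by positivity
  have h3 : (1 : ℝ) - 1 / 2 = 1 / 2 := by norm_num
  rw [h3] at h1
  nlinarith

end Pool.Agent.Results.MP_cecf76_co.TwoSided
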